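import Pool.Agent.Helper741_OutEmb.Char
import Pool.Agent.Helper741_OutEmb.Rank

set_option autoImplicit false

/-!
# Embeddings of `Out(F_n)` from characteristic subgroups of coprime index

If `M` is a characteristic subgroup of finite index in `F_n` and `k` is coprime to the index of
`M`, then `Out(F_n)` embeds in `Out(F_m)` for `m = 1 + (n-1) k^((n-1)([F_n : M] - 1))`.
There is no condition relating `k` and `n - 1`.
-/

namespace Pool.Agent.Results.MP_3ce0a0_al.CharacteristicCovers

open Pool.Agent.Helper741_OutEmb

theorem result (n k : ℕ) (hn : 1 ≤ n) (hk : 1 ≤ k) (M : Subgroup (FreeGroup (Fin n)))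
    (hc : M.Characteristic) (hM : M.index ≠ 0) (hco : Nat.Coprime k M.index) :
    1 + (n - 1) * k ^ ((n - 1) * (M.index - 1)) ∈ E n := by
  have := hc
  obtain ⟨A, hA⟩ := exists_supp_char (k := k) hn (by omega) M hM hco
  exact mem_E_of_supp hn hA

end Pool.Agent.Results.MP_3ce0a0_al.CharacteristicCovers
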