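import Pool.Agent.Helper741_OutEmb.ETwo

set_option autoImplicit false

/-!
# `Out(F_2)` embeds in `Out(F_m)` for every `m ≥ 4`

In particular `E(2)` contains every integer `m ≥ 4`, the second question has a positive answer
for `n = 2`.
-/

namespace Pool.Agent.Results.MP_3ce0a0_al.RankTwo

open Pool.Agent.Helper741_OutEmb

theorem result (m : ℕ) (hm : 4 ≤ m) : m ∈ E 2 := mem_E_two hm

end Pool.Agent.Results.MP_3ce0a0_al.RankTwo
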