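import Pool.Agent.Helper741_OutEmb.Explicit

set_option autoImplicit false

/-!
# Residue classes met by `E(n)`

For `n ≥ 2` the set `E(n)` meets the residue class of `1 + (n-1) r` modulo `(n-1) N` in an infinite
set, for every `N ≥ 1` and every `r` such that `gcd(r, N)` is coprime to `N / gcd(r, N)`; this is
every `r` if `N` is squarefree.
-/

namespace Pool.Agent.Results.MP_3ce0a0_al.ResidueClasses

open Pool.Agent.Helper741_OutEmb

theorem result (n N r : ℕ) (hn : 2 ≤ n) (hN : 1 ≤ N)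
    (hr : Nat.Coprime (Nat.gcd r N) (N / Nat.gcd r N)) :
    {m : ℕ | m ∈ E n ∧ m ≡ 1 + (n - 1) * r [MOD (n - 1) * N]}.Infinite := by
  rw [Set.infinite_iff_exists_gt]
  intro B
  obtain ⟨d, hB, hd, A, hA⟩ := exists_large hn hN r hr B
  refine ⟨1 + (n - 1) * d, ⟨mem_E_of_supp (by omega) hA, ?_⟩, ?_⟩
  · exact Nat.ModEq.add_left 1 (Nat.ModEq.mul_left' (n - 1) hd)
  · have h1 : d ≤ (n - 1) * d := Nat.le_mul_of_pos_left d (by omega)
    omega

end Pool.Agent.Results.MP_3ce0a0_al.ResidueClasses
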